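import Pool.Agent.CeerI.Main

set_option autoImplicit false

namespace Pool.Agent.Results.MP_58a0a5_lc.IdDefinable

open Pool.Agent.CeerI

/-- The degree of `Id` is definable without parameters in the poset of the degrees of ceers modulo
finite ceers: some formula of the language of orders with one free variable holds of exactly one
degree, the degree of `Id`. -/
theorem result : ∃ φ : FirstOrder.Language.order.Formula (Fin 1), ∀ d : CeersI,
    @FirstOrder.Language.Formula.Realize FirstOrder.Language.order CeersI
      (FirstOrder.Language.orderStructure CeersI) (Fin 1) φ (fun _ => d) ↔
      d = deg Ceer.ident :=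
  ⟨phi, phi_defines⟩

end Pool.Agent.Results.MP_58a0a5_lc.IdDefinable
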